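import Pool.Agent.helper76.FV.Defs

/-! # Project FV (MP_3703a7_ag), module FJ: the Fejér kernel -/

namespace Pool.Agent.helper76.FV

open Finset

/-! ### FJ : Fejér kernel -/
noncomputable def fej (N : ℕ) (y : ℝ) : ℝ := (1 / N : ℝ) * ‖∑ j ∈ range N, e ((j : ℝ) * y)‖ ^ 2

theorem fj_e_add (a b : ℝ) : e (a + b) = e a * e b := by
  unfold e
  rw [← Complex.exp_add]
  congr 1
  push_cast
  ring

theorem fj_e_zero : e 0 = 1 := by
  unfold e
  simp

theorem fj_e_norm (a : ℝ) : ‖e a‖ = 1 := by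
  unfold e
  have : (2 * Real.pi * Complex.I * a : ℂ) = ((2 * Real.pi * a : ℝ) : ℂ) * Complex.I := by
    push_cast; ring
  rw [this]
  exact Complex.norm_exp_ofReal_mul_I _

theorem fj_e_neg (a : ℝ) : e (-a) = (starRingEnd ℂ) (e a) := by
  unfold e
  rw [← Complex.exp_conj]
  congr 1
  rw [map_mul, map_mul, map_mul, Complex.conj_I, Complex.conj_ofReal, Complex.conj_ofReal,
    map_ofNat]
  push_cast
  ring

theorem fj_e_int (n : ℤ) : e (n : ℝ) = 1 := by
  unfold e
  have h := Complex.exp_int_mul_two_pi_mul_I n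
  rw [← h]
  congr 1
  push_cast
  ring

theorem fj_e_nat_mul (j : ℕ) (y : ℝ) : e ((j : ℝ) * y) = (e y) ^ j := by
  unfold e
  rw [← Complex.exp_nat_mul]
  congr 1
  push_cast
  ring

theorem fej_nonneg (N : ℕ) (y : ℝ) : 0 ≤ fej N y := by
  unfold fej
  positivity

/-- `‖e y - 1‖ ≥ 4 δ` when `y` has distance at least `δ` from the integers -/
theorem fj_norm_sub_one (y δ : ℝ) (h : ∀ n : ℤ, δ ≤ |y - n|) : 4 * δ ≤ ‖e y - 1‖ := by
  set n := round y with hn
  have h1 : |y - n| ≤ 1 / 2 := abs_sub_round y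
  have h2 := h n
  set z := y - n with hz
  have hy : e y = e z := by
    have : y = z + (n : ℝ) := by rw [hz]; ring
    rw [this, fj_e_add, fj_e_int, mul_one]
  rw [hy]
  have h3 : ‖e z - 1‖ = 2 * |Real.sin (Real.pi * z)| := by
    have h4 := Complex.norm_exp_I_mul_ofReal_sub_one (2 * Real.pi * z)
    have h5 : e z = Complex.exp (Complex.I * ((2 * Real.pi * z : ℝ) : ℂ)) := by
      unfold e
      congr 1
      push_cast
      ring
    rw [h5, h4, Real.norm_eq_abs, abs_mul, abs_of_pos (by norm_num : (0:ℝ) < 2)]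
    congr 3
    ring
  rw [h3]
  have h6 : 2 * |z| ≤ |Real.sin (Real.pi * z)| := by
    have h7 : |Real.sin (Real.pi * z)| = |Real.sin (Real.pi * |z|)| := by
      rcases abs_choice z with h | h
      · rw [h]
      · rw [h, mul_neg, Real.sin_neg, abs_neg]
    rw [h7]
    have h8 : 0 ≤ Real.pi * |z| := by positivity
    have h9 : Real.pi * |z| ≤ Real.pi / 2 := by
      have := mul_le_mul_of_nonneg_left h1 Real.pi_pos.le
      linarith
    have h10 := Real.mul_le_sin h8 h9
    have h11 : 2 / Real.pi * (Real.pi * |z|) = 2 * |z| := by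
      field_simp
    rw [h11] at h10
    exact le_trans h10 (le_abs_self _)
  linarith

theorem fej_le (N : ℕ) (hN : 0 < N) (y δ : ℝ) (hδ : 0 < δ) (h : ∀ n : ℤ, δ ≤ |y - n|) :
    fej N y ≤ 1 / (4 * N * δ ^ 2) := by
  have h1 := fj_norm_sub_one y δ h
  have hne : e y ≠ 1 := by
    intro h2
    rw [h2] at h1
    simp at h1
    linarith
  have hsum : ∑ j ∈ range N, e ((j : ℝ) * y) = (e y ^ N - 1) / (e y - 1) := by
    rw [← geom_sum_eq hne]
    exact Finset.sum_congr rfl (fun j _ => fj_e_nat_mul j y)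
  have hnum : ‖e y ^ N - 1‖ ≤ 2 := by
    calc ‖e y ^ N - 1‖ ≤ ‖e y ^ N‖ + ‖(1 : ℂ)‖ := norm_sub_le _ _
      _ = 2 := by rw [norm_pow, fj_e_norm]; norm_num
  have hle : ‖∑ j ∈ range N, e ((j : ℝ) * y)‖ ≤ 1 / (2 * δ) := by
    rw [hsum, norm_div]
    rw [div_le_div_iff₀ (by linarith) (by linarith)]
    nlinarith [norm_nonneg (e y ^ N - 1)]
  unfold fej
  have hN' : (0 : ℝ) < N := by exact_mod_cast hN
  calc (1 / N : ℝ) * ‖∑ j ∈ range N, e ((j : ℝ) * y)‖ ^ 2
      ≤ (1 / N : ℝ) * (1 / (2 * δ)) ^ 2 := by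
        apply mul_le_mul_of_nonneg_left _ (by positivity)
        exact pow_le_pow_left₀ (norm_nonneg _) hle 2
    _ = 1 / (4 * N * δ ^ 2) := by
        field_simp
        ring

theorem fej_expand (N : ℕ) (hN : 0 < N) : ∃ c : ℤ → ℂ, c 0 = 1 ∧ (∀ j, ‖c j‖ ≤ 1) ∧
    ∀ y : ℝ, (fej N y : ℂ) = ∑ j ∈ Icc (-(N : ℤ)) N, c j * e ((j : ℝ) * y) := by
  have hN' : (N : ℂ) ≠ 0 := by exact_mod_cast hN.ne'
  have hNr : (0 : ℝ) < N := by exact_mod_cast hN
  refine ⟨fun j => (((range N ×ˢ range N).filter (fun p => (p.1 : ℤ) - p.2 = j)).card : ℂ) / N,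
    ?_, ?_, ?_⟩
  · have : ((range N ×ˢ range N).filter (fun p => (p.1 : ℤ) - p.2 = 0)).card = N := by
      have h1 : (range N ×ˢ range N).filter (fun p => (p.1 : ℤ) - p.2 = 0)
          = (range N).image (fun a => (a, a)) := by
        ext ⟨a, b⟩
        simp only [mem_filter, mem_product, mem_range, mem_image, Prod.mk.injEq]
        constructor
        · rintro ⟨⟨ha, hb⟩, hab⟩
          exact ⟨a, ha, rfl, by omega⟩
        · rintro ⟨c, hc, rfl, rfl⟩
          exact ⟨⟨hc, hc⟩, by omega⟩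
      rw [h1, card_image_of_injective _ (fun a b h => by simpa using h), card_range]
    simp only [this]
    field_simp
  · intro j
    have h1 : ((range N ×ˢ range N).filter (fun p => (p.1 : ℤ) - p.2 = j)).card ≤ N := by
      calc ((range N ×ˢ range N).filter (fun p => (p.1 : ℤ) - p.2 = j)).card
          ≤ (range N).card := by
            apply card_le_card_of_injOn (fun p => p.2)
            · rintro ⟨a, b⟩ h
              simp only [coe_filter, mem_product, mem_range, Set.mem_ofPred_eq] at h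
              simp only [coe_range, Set.mem_Iio]
              exact h.1.2
            · rintro ⟨a, b⟩ h ⟨a', b'⟩ h' heq
              simp only [coe_filter, mem_product, mem_range, Set.mem_ofPred_eq] at h h'
              simp only at heq
              subst heq
              have : a = a' := by omega
              rw [this]
        _ = N := card_range N
    rw [norm_div, Complex.norm_natCast, Complex.norm_natCast, div_le_one hNr]
    exact_mod_cast h1
  · intro y
    have h1 : ((‖∑ j ∈ range N, e ((j : ℝ) * y)‖ ^ 2 : ℝ) : ℂ)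
        = ∑ p ∈ range N ×ˢ range N, e ((((p.1 : ℤ) - p.2 : ℤ) : ℝ) * y) := by
      have h2 : ((‖∑ j ∈ range N, e ((j : ℝ) * y)‖ ^ 2 : ℝ) : ℂ)
          = (∑ j ∈ range N, e ((j : ℝ) * y)) *
            (starRingEnd ℂ) (∑ j ∈ range N, e ((j : ℝ) * y)) := by
        rw [Complex.mul_conj, Complex.normSq_eq_norm_sq]
      rw [h2, map_sum, sum_mul_sum, sum_product]
      refine Finset.sum_congr rfl (fun a _ => Finset.sum_congr rfl (fun b _ => ?_))
      rw [← fj_e_neg, ← fj_e_add]
      congr 1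
      push_cast
      ring
    have h3 : ∑ p ∈ range N ×ˢ range N, e ((((p.1 : ℤ) - p.2 : ℤ) : ℝ) * y)
        = ∑ j ∈ Icc (-(N : ℤ)) N,
          (((range N ×ˢ range N).filter (fun p => (p.1 : ℤ) - p.2 = j)).card : ℂ)
            * e ((j : ℝ) * y) := by
      rw [← Finset.sum_fiberwise_of_maps_to (s := range N ×ˢ range N) (t := Icc (-(N : ℤ)) N)
        (g := fun p => (p.1 : ℤ) - p.2)]
      · refine Finset.sum_congr rfl (fun j _ => ?_)
        rw [Finset.sum_congr rfl (g := fun _ => e ((j : ℝ) * y))]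
        · rw [sum_const, nsmul_eq_mul]
        · intro p hp
          rw [(mem_filter.mp hp).2]
      · rintro ⟨a, b⟩ hp
        simp only [mem_product, mem_range] at hp
        simp only [mem_Icc]
        omega
    unfold fej
    push_cast at h1 ⊢
    rw [h1]
    have h4 := h3
    push_cast at h4
    rw [h4, mul_sum]
    refine Finset.sum_congr rfl (fun j _ => ?_)
    ring

end Pool.Agent.helper76.FV
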