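import Pool.Agent.helper76.FV.WY
import Pool.Agent.helper97.FV.FJ

/-! # Project FV (MP_3703a7_ag), module BX: the box lemma -/

namespace Pool.Agent.helper76.FV

open Finset

theorem bx_den_dvd {d : ℕ} (M : ℕ) (u : Fin d → ℚ) (hu : ∀ j, (u j).den ∣ M) (γ : Fin d → ℤ) :
    (∑ j, (γ j : ℚ) * u j).den ∣ M := by
  classical
  have key : ∀ s : Finset (Fin d), (∑ j ∈ s, (γ j : ℚ) * u j).den ∣ M := by
    intro s
    induction s using Finset.induction_on with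
    | empty => simp
    | insert a s ha ih =>
      rw [sum_insert ha]
      have h1 : ((γ a : ℚ) * u a).den ∣ M := by
        have h2 := Rat.mul_den_dvd (γ a : ℚ) (u a)
        rw [Rat.den_intCast, one_mul] at h2
        exact h2.trans (hu a)
      exact (Rat.add_den_dvd_lcm _ _).trans (Nat.lcm_dvd h1 ih)
  exact key univ

/-- the main estimate: the average of a product of Fejér kernels -/
theorem bx_main {d : ℕ} (N : ℕ) (hN : 0 < N) (v : Fin d → ℝ) (T : Finset ℕ) (u : Fin d → ℚ)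
    (ε : ℝ) (hε : 0 ≤ ε)
    (hw : ∀ γ : Fin d → ℤ, γ ≠ 0 → (∀ j, |γ j| ≤ N) →
      ‖∑ t ∈ T, e ((t : ℝ) * ((∑ j, (γ j : ℚ) * u j : ℚ) : ℝ))‖ ≤ ε * T.card)
    (S : Finset (Fin d)) :
    |∑ t ∈ T, ∏ j ∈ S, fej N ((t : ℝ) * (u j : ℝ) - v j) - T.card|
      ≤ (2 * N + 1) ^ d * ε * T.card := by
  classical
  obtain ⟨c, hc0, hc1, hc⟩ := fej_expand N hN
  set s : Fin d → Finset ℤ := fun j => if j ∈ S then Icc (-(N : ℤ)) N else {0} with hs
  have hprod : ∀ t : ℕ, ((∏ j ∈ S, fej N ((t : ℝ) * (u j : ℝ) - v j) : ℝ) : ℂ)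
      = ∑ γ ∈ Fintype.piFinset s, (∏ j, c (γ j)) * e (-∑ j, (γ j : ℝ) * v j) *
          e ((t : ℝ) * ((∑ j, (γ j : ℚ) * u j : ℚ) : ℝ)) := by
    intro t
    have h1 : ((∏ j ∈ S, fej N ((t : ℝ) * (u j : ℝ) - v j) : ℝ) : ℂ)
        = ∏ j, ∑ a ∈ s j, c a * e ((a : ℝ) * ((t : ℝ) * (u j : ℝ) - v j)) := by
      rw [Complex.ofReal_prod, ← Finset.prod_subset (subset_univ S)]
      · refine Finset.prod_congr rfl (fun j hj => ?_)
        rw [hc]
        simp only [hs, if_pos hj]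
      · intro j _ hj
        simp only [hs, if_neg hj, sum_singleton, hc0, Int.cast_zero, zero_mul, fj_e_zero, mul_one]
    rw [h1, Finset.prod_univ_sum]
    refine Finset.sum_congr rfl (fun γ _ => ?_)
    rw [prod_mul_distrib, mul_assoc, ← fj_e_add]
    congr 1
    have h2 : ∀ (R : Finset (Fin d)) (f : Fin d → ℝ), ∏ j ∈ R, e (f j) = e (∑ j ∈ R, f j) := by
      intro R f
      induction R using Finset.induction_on with
      | empty => simp [fj_e_zero]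
      | insert a R ha ih => rw [prod_insert ha, sum_insert ha, fj_e_add, ih]
    rw [h2]
    congr 1
    push_cast
    rw [mul_sum, ← sum_neg_distrib, ← sum_add_distrib]
    refine Finset.sum_congr rfl (fun j _ => ?_)
    ring
  have hsum : ((∑ t ∈ T, ∏ j ∈ S, fej N ((t : ℝ) * (u j : ℝ) - v j) : ℝ) : ℂ)
      = ∑ γ ∈ Fintype.piFinset s, (∏ j, c (γ j)) * e (-∑ j, (γ j : ℝ) * v j) *
          ∑ t ∈ T, e ((t : ℝ) * ((∑ j, (γ j : ℚ) * u j : ℚ) : ℝ)) := by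
    rw [Complex.ofReal_sum, Finset.sum_congr rfl (fun t _ => hprod t), Finset.sum_comm]
    exact Finset.sum_congr rfl (fun γ _ => (mul_sum _ _ _).symm)
  have h0 : (0 : Fin d → ℤ) ∈ Fintype.piFinset s := by
    rw [Fintype.mem_piFinset]
    intro j
    by_cases hj : j ∈ S
    · simp [hs, hj]
    · simp [hs, hj]
  have hdiff : ((∑ t ∈ T, ∏ j ∈ S, fej N ((t : ℝ) * (u j : ℝ) - v j) - T.card : ℝ) : ℂ)
      = ∑ γ ∈ (Fintype.piFinset s).erase 0, (∏ j, c (γ j)) * e (-∑ j, (γ j : ℝ) * v j) *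
          ∑ t ∈ T, e ((t : ℝ) * ((∑ j, (γ j : ℚ) * u j : ℚ) : ℝ)) := by
    rw [Complex.ofReal_sub, hsum, ← Finset.add_sum_erase _ _ h0]
    simp [hc0, fj_e_zero]
  have hnorm : |∑ t ∈ T, ∏ j ∈ S, fej N ((t : ℝ) * (u j : ℝ) - v j) - T.card|
      = ‖((∑ t ∈ T, ∏ j ∈ S, fej N ((t : ℝ) * (u j : ℝ) - v j) - T.card : ℝ) : ℂ)‖ := by
    rw [Complex.norm_real, Real.norm_eq_abs]
  rw [hnorm, hdiff]
  have hcard : ((Fintype.piFinset s).erase 0).card ≤ (2 * N + 1) ^ d := by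
    calc ((Fintype.piFinset s).erase 0).card ≤ (Fintype.piFinset s).card :=
          card_le_card (erase_subset _ _)
      _ = ∏ j, (s j).card := Fintype.card_piFinset _
      _ ≤ ∏ j : Fin d, (2 * N + 1) := by
          refine Finset.prod_le_prod' (fun j _ => ?_)
          by_cases hj : j ∈ S
          · simp only [hs, if_pos hj, Int.card_Icc]
            omega
          · simp only [hs, if_neg hj, card_singleton]
            omega
      _ = (2 * N + 1) ^ d := by simp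
  calc ‖∑ γ ∈ (Fintype.piFinset s).erase 0, (∏ j, c (γ j)) * e (-∑ j, (γ j : ℝ) * v j) *
          ∑ t ∈ T, e ((t : ℝ) * ((∑ j, (γ j : ℚ) * u j : ℚ) : ℝ))‖
      ≤ ∑ γ ∈ (Fintype.piFinset s).erase 0, ‖(∏ j, c (γ j)) * e (-∑ j, (γ j : ℝ) * v j) *
          ∑ t ∈ T, e ((t : ℝ) * ((∑ j, (γ j : ℚ) * u j : ℚ) : ℝ))‖ := norm_sum_le _ _
    _ ≤ ∑ γ ∈ (Fintype.piFinset s).erase 0, ε * T.card := by
        refine Finset.sum_le_sum (fun γ hγ => ?_)
        have hγ' := mem_erase.mp hγ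
        have h3 := hw γ hγ'.1 (by
          intro j
          have h4 := Fintype.mem_piFinset.mp hγ'.2 j
          by_cases hj : j ∈ S
          · simp only [hs, if_pos hj, mem_Icc] at h4
            exact abs_le.mpr h4
          · simp only [hs, if_neg hj, mem_singleton] at h4
            rw [h4]
            simp)
        rw [norm_mul, norm_mul, fj_e_norm, mul_one]
        have h5 : ‖∏ j, c (γ j)‖ ≤ 1 := by
          rw [norm_prod]
          exact Finset.prod_le_one (fun j _ => norm_nonneg _) (fun j _ => hc1 _)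
        calc ‖∏ j, c (γ j)‖ * ‖∑ t ∈ T, e ((t : ℝ) * ((∑ j, (γ j : ℚ) * u j : ℚ) : ℝ))‖
            ≤ 1 * ‖∑ t ∈ T, e ((t : ℝ) * ((∑ j, (γ j : ℚ) * u j : ℚ) : ℝ))‖ :=
              mul_le_mul_of_nonneg_right h5 (norm_nonneg _)
          _ ≤ ε * T.card := by rw [one_mul]; exact h3
    _ = ((Fintype.piFinset s).erase 0).card * (ε * T.card) := by
        rw [sum_const, nsmul_eq_mul]
    _ ≤ ((2 * N + 1) ^ d : ℕ) * (ε * T.card) := by
        apply mul_le_mul_of_nonneg_right _ (by positivity)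
        exact_mod_cast hcard
    _ = (2 * N + 1) ^ d * ε * T.card := by
        push_cast
        ring

/-! ### BX : box lemma (from WY, FJ) -/
theorem box (d q : ℕ) (hq : 0 < q) (t₀ : ℤ) (ht : IsCoprime t₀ (q : ℤ)) (v : Fin d → ℝ)
    (δ : ℝ) (hδ : 0 < δ) :
    ∃ C : ℕ, ∀ M : ℕ, 0 < M → q ∣ M → ∀ u : Fin d → ℚ, (∀ j, (u j).den ∣ M) →
      (∃ γ : Fin d → ℤ, γ ≠ 0 ∧ (∀ j, |γ j| ≤ C) ∧ (∑ j, (γ j : ℚ) * u j).den ≤ C) ∨
      (∃ t : ℤ, IsCoprime t (M : ℤ) ∧ (q : ℤ) ∣ t - t₀ ∧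
        ∀ j, ∃ n : ℤ, |(t : ℝ) * (u j : ℝ) - v j - n| < δ) := by
  classical
  obtain ⟨N, hNd⟩ := exists_nat_gt ((d : ℝ) / δ ^ 2)
  have hNd0 : (0 : ℝ) ≤ (d : ℝ) / δ ^ 2 := by positivity
  have hNr : (0 : ℝ) < N := lt_of_le_of_lt hNd0 hNd
  have hN : 0 < N := by exact_mod_cast hNr
  set ε : ℝ := 1 / (2 * (2 * N + 1) ^ d) with hε
  have hεpos : 0 < ε := by positivity
  obtain ⟨C₁, hC₁⟩ := weyl q hq t₀ ht ε hεpos
  refine ⟨max N C₁, ?_⟩
  intro M hM hqM u hu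
  by_contra hcon
  rw [not_or] at hcon
  obtain ⟨hA, hB⟩ := hcon
  set T := TT M q t₀ with hT
  have hTcard : 0 < T.card := by
    have h1 := TT_card M q hM hqM t₀ ht
    have h2 : 0 < Nat.totient M := Nat.totient_pos.mpr hM
    rw [← h1] at h2
    exact Nat.pos_of_mul_pos_right h2
  have hTr : (0 : ℝ) < T.card := by exact_mod_cast hTcard
  have hw : ∀ γ : Fin d → ℤ, γ ≠ 0 → (∀ j, |γ j| ≤ N) →
      ‖∑ t ∈ T, e ((t : ℝ) * ((∑ j, (γ j : ℚ) * u j : ℚ) : ℝ))‖ ≤ ε * T.card := by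
    intro γ hγ hγN
    apply hC₁ M hM hqM _ (bx_den_dvd M u hu γ)
    by_contra hle
    push Not at hle
    apply hA
    refine ⟨γ, hγ, fun j => ?_, hle.trans (le_max_right _ _)⟩
    exact (hγN j).trans (by exact_mod_cast le_max_left _ _)
  have hmain := bx_main N hN v T u ε hεpos.le hw
  have hconst : (2 * N + 1) ^ d * ε * T.card = (T.card : ℝ) / 2 := by
    rw [hε]
    field_simp
  have hlow : (T.card : ℝ) / 2 ≤ ∑ t ∈ T, ∏ j, fej N ((t : ℝ) * (u j : ℝ) - v j) := by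
    have h1 := abs_le.mp (hmain univ)
    rw [hconst] at h1
    linarith [h1.1]
  have hup : ∀ i : Fin d, ∑ t ∈ T, ∏ j ∈ univ.erase i, fej N ((t : ℝ) * (u j : ℝ) - v j)
      ≤ 3 / 2 * T.card := by
    intro i
    have h1 := abs_le.mp (hmain (univ.erase i))
    rw [hconst] at h1
    linarith [h1.2]
  set κ : ℝ := 1 / (4 * N * δ ^ 2) with hκ
  have hκ0 : 0 ≤ κ := by positivity
  have hpt : ∀ t ∈ T, ∏ j, fej N ((t : ℝ) * (u j : ℝ) - v j)
      ≤ ∑ i, κ * ∏ j ∈ univ.erase i, fej N ((t : ℝ) * (u j : ℝ) - v j) := by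
    intro t htT
    have h1 : ∃ i : Fin d, ∀ n : ℤ, δ ≤ |(t : ℝ) * (u i : ℝ) - v i - n| := by
      by_contra hno
      push Not at hno
      apply hB
      have h2 : t < M ∧ Nat.Coprime t M ∧ (q : ℤ) ∣ (t : ℤ) - t₀ := by
        have := htT
        rw [hT, TT, mem_filter, mem_range] at this
        exact this
      refine ⟨(t : ℤ), Nat.isCoprime_iff_coprime.mpr h2.2.1, h2.2.2, fun j => ?_⟩
      obtain ⟨n, hn⟩ := hno j
      exact ⟨n, by simpa using hn⟩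
    obtain ⟨i, hi⟩ := h1
    have h3 := fej_le N hN _ δ hδ hi
    calc ∏ j, fej N ((t : ℝ) * (u j : ℝ) - v j)
        = fej N ((t : ℝ) * (u i : ℝ) - v i) *
            ∏ j ∈ univ.erase i, fej N ((t : ℝ) * (u j : ℝ) - v j) :=
          (mul_prod_erase univ _ (mem_univ i)).symm
      _ ≤ κ * ∏ j ∈ univ.erase i, fej N ((t : ℝ) * (u j : ℝ) - v j) :=
          mul_le_mul_of_nonneg_right h3 (prod_nonneg (fun j _ => fej_nonneg _ _))
      _ ≤ ∑ i, κ * ∏ j ∈ univ.erase i, fej N ((t : ℝ) * (u j : ℝ) - v j) :=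
          single_le_sum (f := fun i => κ * ∏ j ∈ univ.erase i, fej N ((t : ℝ) * (u j : ℝ) - v j))
            (fun i _ => mul_nonneg hκ0 (prod_nonneg (fun j _ => fej_nonneg _ _))) (mem_univ i)
  have hfin : (T.card : ℝ) / 2 ≤ d * (κ * (3 / 2 * T.card)) := by
    calc (T.card : ℝ) / 2 ≤ ∑ t ∈ T, ∏ j, fej N ((t : ℝ) * (u j : ℝ) - v j) := hlow
      _ ≤ ∑ t ∈ T, ∑ i, κ * ∏ j ∈ univ.erase i, fej N ((t : ℝ) * (u j : ℝ) - v j) :=
          sum_le_sum hpt
      _ = ∑ i, κ * ∑ t ∈ T, ∏ j ∈ univ.erase i, fej N ((t : ℝ) * (u j : ℝ) - v j) := by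
          rw [sum_comm]
          exact sum_congr rfl (fun i _ => (mul_sum _ _ _).symm)
      _ ≤ ∑ i : Fin d, κ * (3 / 2 * T.card) :=
          sum_le_sum (fun i _ => mul_le_mul_of_nonneg_left (hup i) hκ0)
      _ = d * (κ * (3 / 2 * T.card)) := by
          rw [sum_const, card_univ, Fintype.card_fin, nsmul_eq_mul]
  have hdκ : (d : ℝ) * κ ≤ 1 / 4 := by
    rw [hκ]
    have h1 : (d : ℝ) < N * δ ^ 2 := by
      rw [div_lt_iff₀ (by positivity)] at hNd
      exact hNd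
    rw [mul_one_div, div_le_iff₀ (by positivity)]
    linarith
  nlinarith

end Pool.Agent.helper76.FV
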